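import Pool.Agent.W680.WH.Stm

set_option autoImplicit false

open scoped ComplexConjugate InnerProductSpace
open ContinuousLinearMap

namespace Pool.Agent.W405.WH.DR

section alg
variable {A : Type*} [Ring A] [Algebra ℂ A]

/-- inverses commute with what the element commutes with -/
lemma comm_inv {u v x : A} (h1 : v * u = 1) (h2 : u * v = 1) (h : x * u = u * x) :
    x * v = v * x := by
  calc x * v = (v * u) * x * v := by rw [h1, one_mul]
    _ = v * (u * x) * v := by simp only [mul_assoc]
    _ = v * (x * u) * v := by rw [h]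
    _ = v * x * (u * v) := by simp only [mul_assoc]
    _ = v * x := by rw [h2, mul_one]

lemma diffA (r : ℂ) (z y G H : A) (g1 : G * (1 - r • z) = 1) (g2 : (1 - r • z) * G = 1)
    (k1 : H * (1 - r • y) = 1) (k2 : (1 - r • y) * H = 1) :
    (z - r • 1) * G - (y - r • 1) * H = (1 - r ^ 2) • (H * (z - y) * G) := by
  have hc : (y - r • 1) * H = H * (y - r • 1) := by
    refine comm_inv k1 k2 ?_
    simp only [sub_mul, mul_sub, smul_mul_assoc, mul_smul_comm, one_mul, mul_one]
    module
  have e1 : (1 - r • y) * (z - r • 1) - (y - r • 1) * (1 - r • z) = (1 - r ^ 2) • (z - y) := by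
    simp only [sub_mul, mul_sub, smul_mul_assoc, mul_smul_comm, one_mul, mul_one]
    module
  calc (z - r • 1) * G - (y - r • 1) * H
      = (H * (1 - r • y)) * (z - r • 1) * G - H * (y - r • 1) * ((1 - r • z) * G) := by
        rw [k1, g2, one_mul, mul_one, hc]
    _ = H * ((1 - r • y) * (z - r • 1) - (y - r • 1) * (1 - r • z)) * G := by
        simp only [mul_sub, sub_mul, mul_assoc]
    _ = _ := by rw [e1]; simp only [smul_mul_assoc, mul_smul_comm]

lemma diffB (r : ℂ) (z y G H : A) (g1 : G * (1 - r • z) = 1) (g2 : (1 - r • z) * G = 1)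
    (k1 : H * (1 - r • y) = 1) (k2 : (1 - r • y) * H = 1) :
    (z - r • 1) * G - (y - r • 1) * H = (1 - r ^ 2) • (G * (z - y) * H) := by
  have h := diffA r y z H G k1 k2 g1 g2
  rw [← neg_sub, h]
  rw [← smul_neg]
  congr 1
  simp only [mul_sub, sub_mul]
  abel

/-- the commutative part -/
lemma commpart (r : ℂ) (y s H K : A) (a1 : y * s = 1) (a2 : s * y = 1)
    (k1 : H * (1 - r • y) = 1) (k2 : (1 - r • y) * H = 1)
    (l1 : K * (1 - r • s) = 1) (l2 : (1 - r • s) * K = 1) :
    -s = (2 * r) • H - (1 - r ^ 2) • (H * ((s - r • 1) * K) * H)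
      + (-(r • H) + r • (s * s * K)) := by
  have hsH : s * H = H * s := by
    refine comm_inv k1 k2 ?_
    simp only [sub_mul, mul_sub, smul_mul_assoc, mul_smul_comm, one_mul, mul_one, a1, a2]
  have h1 : H * (s - r • 1) = s := by
    have : s - r • (1 : A) = (1 - r • y) * s := by
      simp only [sub_mul, smul_mul_assoc, one_mul, a1]
    rw [this, ← mul_assoc, k1, one_mul]
  have h2 : H * ((s - r • 1) * K) * H = s * K * H := by
    rw [← mul_assoc, h1]
  have hKs : s * K = K * s := by
    refine comm_inv l1 l2 ?_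
    simp only [sub_mul, mul_sub, smul_mul_assoc, mul_smul_comm, one_mul, mul_one]
  rw [h2]
  -- multiply by the units
  have key : (1 - r • s) * (-s) * (1 - r • y) = (1 - r • s) * ((2 * r) • H - (1 - r ^ 2) • (s * K * H)
      + (-(r • H) + r • (s * s * K))) * (1 - r • y) := by
    have e1 : (1 - r • s) * H * (1 - r • y) = 1 - r • s := by rw [mul_assoc, k1, mul_one]
    have e2 : (1 - r • s) * (s * K * H) * (1 - r • y) = s := by
      rw [mul_assoc, mul_assoc (s * K), k1, mul_one, hKs, ← mul_assoc, l2, one_mul]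
    have e3 : (1 - r • s) * (s * s * K) * (1 - r • y) = s * s * (1 - r • y) := by
      have : s * s * K = K * (s * s) := by rw [mul_assoc, hKs, ← mul_assoc, hKs, mul_assoc]
      rw [this, ← mul_assoc, l2, one_mul]
    calc (1 - r • s) * (-s) * (1 - r • y) = (2 * r) • (1 - r • s) - (1 - r ^ 2) • s +
        (-(r • (1 - r • s)) + r • (s * s * (1 - r • y))) := by
          have b1 : s * s * y = s := by rw [mul_assoc, a2, mul_one]
          simp only [sub_mul, mul_sub, smul_mul_assoc, mul_smul_comm, one_mul, mul_one, mul_neg,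
            neg_mul, a2, b1]
          module
      _ = (2 * r) • ((1 - r • s) * H * (1 - r • y)) -
          (1 - r ^ 2) • ((1 - r • s) * (s * K * H) * (1 - r • y)) +
        (-(r • ((1 - r • s) * H * (1 - r • y))) +
          r • ((1 - r • s) * (s * s * K) * (1 - r • y))) := by rw [e1, e2, e3]
      _ = _ := by
          simp only [mul_add, add_mul, mul_sub (1 - r • s), sub_mul _ _ (1 - r • y), mul_neg, neg_mul,
            smul_mul_assoc, mul_smul_comm]
  have := congrArg (fun x => K * x * H) key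
  have c1 : ∀ x : A, K * ((1 - r • s) * x * (1 - r • y)) * H = x := by
    intro x
    calc K * ((1 - r • s) * x * (1 - r • y)) * H = (K * (1 - r • s)) * x * ((1 - r • y) * H) := by
          simp only [mul_assoc]
      _ = x := by rw [l1, k2, one_mul, mul_one]
  rwa [c1, c1] at this

lemma main_alg (r : ℂ) (z y s G H K L M : A) (a1 : y * s = 1) (a2 : s * y = 1)
    (g1 : G * (1 - r • z) = 1) (g2 : (1 - r • z) * G = 1)
    (k1 : H * (1 - r • y) = 1) (k2 : (1 - r • y) * H = 1)
    (l1 : K * (1 - r • s) = 1) (l2 : (1 - r • s) * K = 1)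
    (hL : L * z = z * L)
    (hM : z * M - M * z = -((2 : ℂ) • ((z - y) * (-(r • H) + r • (s * s * K)) * (z - y)))) :
    (1 - r ^ 2) • (G * (-((2 : ℂ) • (z - y) + (z - y) * s * (z - y))) * G) =
      -((2 : ℂ) • ((z - r • 1) * G - (y - r • 1) * H) +
        ((z - r • 1) * G - (y - r • 1) * H) * ((s - r • 1) * K) *
          ((z - r • 1) * G - (y - r • 1) * H)) +
      (((z - r • 1) * G) * ((1 / 2 : ℂ) • (L - M)) - ((1 / 2 : ℂ) • (L - M)) * ((z - r • 1) * G)) := by
  set q := z - y with hq
  set W := -(r • H) + r • (s * s * K) with hW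
  have hA := diffA r z y G H g1 g2 k1 k2
  have hB := diffB r z y G H g1 g2 k1 k2
  rw [← hq] at hA hB
  -- commutator with `L`
  have hLG : L * G = G * L := by
    refine comm_inv g1 g2 ?_
    simp only [sub_mul, mul_sub, smul_mul_assoc, mul_smul_comm, one_mul, mul_one, hL]
  have hLP : L * ((z - r • 1) * G) = ((z - r • 1) * G) * L := by
    calc L * ((z - r • 1) * G) = (L * (z - r • 1)) * G := by rw [mul_assoc]
      _ = ((z - r • 1) * L) * G := by
          congr 1
          simp only [sub_mul, mul_sub, smul_mul_assoc, mul_smul_comm, one_mul, mul_one, hL]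
      _ = _ := by rw [mul_assoc, hLG, ← mul_assoc]
  -- commutator with `M`
  have hMP : ((z - r • 1) * G) * M - M * ((z - r • 1) * G) =
      -((2 * (1 - r ^ 2)) • (G * (q * W * q) * G)) := by
    have e1 : (z - r • 1) * G = G * (z - r • 1) := by
      refine comm_inv g1 g2 ?_
      simp only [sub_mul, mul_sub, smul_mul_assoc, mul_smul_comm, one_mul, mul_one]
      module
    have e2 : ((z - r • 1) * G) * M - M * ((z - r • 1) * G) =
        G * ((z - r • 1) * M * (1 - r • z) - (1 - r • z) * M * (z - r • 1)) * G := by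
      have f1 : ((z - r • 1) * G) * M = G * ((z - r • 1) * M * (1 - r • z)) * G := by
        rw [e1]
        calc G * (z - r • 1) * M = G * (z - r • 1) * M * ((1 - r • z) * G) := by rw [g2, mul_one]
          _ = _ := by simp only [mul_assoc]
      have f2 : M * ((z - r • 1) * G) = G * ((1 - r • z) * M * (z - r • 1)) * G := by
        calc M * ((z - r • 1) * G) = (G * (1 - r • z)) * M * ((z - r • 1) * G) := by
              rw [g1, one_mul]
          _ = _ := by simp only [mul_assoc]
      rw [f1, f2, ← sub_mul, ← mul_sub]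
    have e3 : (z - r • 1) * M * (1 - r • z) - (1 - r • z) * M * (z - r • 1) =
        (1 - r ^ 2) • (z * M - M * z) := by
      simp only [sub_mul, mul_sub, smul_mul_assoc, mul_smul_comm, one_mul, mul_one]
      module
    rw [e2, e3, hM]
    simp only [smul_mul_assoc, mul_smul_comm, mul_neg, neg_mul, smul_neg, smul_smul]
    congr 2
    ring
  have hd : (((z - r • 1) * G) * ((1 / 2 : ℂ) • (L - M)) -
      ((1 / 2 : ℂ) • (L - M)) * ((z - r • 1) * G)) = (1 - r ^ 2) • (G * (q * W * q) * G) := by
    have : (((z - r • 1) * G) * ((1 / 2 : ℂ) • (L - M)) -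
      ((1 / 2 : ℂ) • (L - M)) * ((z - r • 1) * G)) =
      -((1 / 2 : ℂ) • (((z - r • 1) * G) * M - M * ((z - r • 1) * G))) := by
      simp only [smul_mul_assoc, mul_smul_comm, mul_sub ((z - r • 1) * G), sub_mul L M, hLP]
      module
    rw [this, hMP]
    simp only [smul_neg, neg_neg, smul_smul]
    congr 1
    ring
  rw [hd]
  -- the quadratic term
  have hquad : ((z - r • 1) * G - (y - r • 1) * H) * ((s - r • 1) * K) *
      ((z - r • 1) * G - (y - r • 1) * H) =
      ((1 - r ^ 2) * (1 - r ^ 2)) • (G * q * (H * ((s - r • 1) * K) * H) * q * G) := by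
    nth_rewrite 1 [hB]
    rw [hA]
    simp only [smul_mul_assoc, mul_smul_comm, smul_smul, mul_assoc]
  rw [hquad, hB]
  have hcp := commpart r y s H K a1 a2 k1 k2 l1 l2
  rw [← hW] at hcp
  set V := H * ((s - r • 1) * K) * H with hV
  -- reduce to the inner identity
  have inner : (2 : ℂ) • G * q * G + G * q * s * q * G = (2 : ℂ) • (G * q * H) +
      (1 - r ^ 2) • (G * q * V * q * G) - G * (q * W * q) * G := by
    have i1 : H = G + r • (H * q * G) * (-1) := by
      -- `H (1 - r z) = 1 - r H q`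
      have j1 : H * (1 - r • z) = 1 - r • (H * q) := by
        have : (1 - r • z) = (1 - r • y) - r • q := by rw [hq]; module
        rw [this, mul_sub, k1, mul_smul_comm]
      calc H = H * ((1 - r • z) * G) := by rw [g2, mul_one]
        _ = (H * (1 - r • z)) * G := by rw [mul_assoc]
        _ = (1 - r • (H * q)) * G := by rw [j1]
        _ = _ := by
            simp only [sub_mul, smul_mul_assoc, one_mul, mul_neg, mul_one]
            module
    have i2 : G * q * H = G * q * G - r • (G * q * H * q * G) := by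
      nth_rewrite 1 [i1]
      simp only [mul_add, smul_mul_assoc, mul_smul_comm, mul_neg, mul_one, mul_assoc]
      module
    have i3 : G * q * s * q * G = -((2 * r) • (G * q * H * q * G)) +
        (1 - r ^ 2) • (G * q * V * q * G) - G * (q * W * q) * G := by
      have : s = -((2 * r) • H) + (1 - r ^ 2) • V - W := by
        have h5 : s = -(-s) := by rw [neg_neg]
        rw [h5, hcp]; module
      nth_rewrite 1 [this]
      simp only [mul_add, mul_sub, add_mul, sub_mul, mul_neg, neg_mul, smul_mul_assoc,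
        mul_smul_comm, mul_assoc]
    obtain ⟨Y, hY⟩ : ∃ Y, Y = G * q * H * q * G := ⟨_, rfl⟩
    rw [← hY] at i2 i3
    rw [i3, i2]
    simp only [smul_mul_assoc]
    module
  have inner2 : G * (-((2 : ℂ) • q + q * s * q)) * G =
      -((2 : ℂ) • (G * q * H) + (1 - r ^ 2) • (G * q * V * q * G) - G * (q * W * q) * G) := by
    rw [← inner]
    simp only [mul_neg, neg_mul, mul_add, add_mul, smul_mul_assoc, mul_smul_comm, mul_assoc]
  rw [inner2]
  module

end alg

open Pool.Agent.W680.WH in
lemma jj_neg (hopj : S_OPJ) (f : E) : jj (-f) = - jj f := by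
  obtain ⟨-, -, -, -, -, -, -, hjs, -, -, -, -⟩ := hopj
  have := hjs (-1) f
  simpa using this

open Pool.Agent.W680.WH in
theorem main (hlog : S_LOG) (hsch : S_SCH) (hopa : S_OPA) (hinv : S_INV) (hopj : S_OPJ) :
    S_DR := by
  obtain ⟨C, hC⟩ := hsch
  refine ⟨C / 2, fun r hr0 hr1 => ?_⟩
  obtain ⟨L, hLm, hLZ, hLj, hLj', hcom⟩ := hlog r hr0 hr1
  obtain ⟨⟨-, -, a1, a2⟩, -, -, -⟩ := hopa
  have hneg := jj_neg hopj
  obtain ⟨-, -, -, -, -, -, hja, hjs, -, -, -, -⟩ := hopj
  have hn : ‖(r : ℂ)‖ < 1 := by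
    rw [Complex.norm_real, Real.norm_of_nonneg hr0]; exact hr1
  obtain ⟨uZ, -, uY, uS, -, -⟩ := hinv (r : ℂ) hn
  refine ⟨(1 / 2 : ℂ) • (L - adjoint L), ?_, ?_, ?_, ?_⟩
  · rw [map_smulₛₗ, map_sub, adjoint_adjoint]
    have : (starRingEnd ℂ) (1 / 2 : ℂ) = 1 / 2 := by
      rw [map_div₀, map_one, map_ofNat]
    rw [this, ← smul_neg, neg_sub]
  · intro f
    have h1 : ((1 / 2 : ℂ) • (L - adjoint L)) f = (1 / 2 : ℂ) • (L f + -(adjoint L f)) := by
      rw [← sub_eq_add_neg]; rfl
    have h2 : ((1 / 2 : ℂ) • (L - adjoint L)) (jj f) =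
        (1 / 2 : ℂ) • (L (jj f) + -(adjoint L (jj f))) := by
      rw [← sub_eq_add_neg]; rfl
    have h3 : (starRingEnd ℂ) (1 / 2 : ℂ) = 1 / 2 := by
      rw [map_div₀, map_one, map_ofNat]
    rw [h1, h2, hjs, hja, hneg, hLj, hLj', h3]
  · rw [norm_smul]
    have h1 : ‖(1 / 2 : ℂ)‖ = 1 / 2 := by norm_num
    rw [h1]
    have := hC r L hr0 hr1 hLm
    linarith
  · intro G P P2 P2i hG hP hP2 hP2i
    have h := main_alg (r : ℂ) Z Z2 Zs G (Ring.inverse (1 - (r : ℂ) • Z2))
      (Ring.inverse (1 - (r : ℂ) • Zs)) L (adjoint L) a1 a2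
      (by rw [hG]; exact Ring.inverse_mul_cancel _ uZ) (by rw [hG]; exact Ring.mul_inverse_cancel _ uZ)
      (Ring.inverse_mul_cancel _ uY) (Ring.mul_inverse_cancel _ uY)
      (Ring.inverse_mul_cancel _ uS) (Ring.mul_inverse_cancel _ uS) hLZ hcom
    rw [← hP, ← hP2, ← hP2i] at h
    have hX : X = -((2 : ℂ) • (Z - Z2) + (Z - Z2) * Zs * (Z - Z2)) := rfl
    rw [← hX] at h
    have h4 : ((1 - r ^ 2 : ℝ) : ℂ) = 1 - (r : ℂ) ^ 2 := by push_cast; ring
    rw [h4]
    exact h

end Pool.Agent.W405.WH.DR
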